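import Pool.Agent.Helper113.Gorin.Defs

set_option autoImplicit false

open Metric Set Topology H113G
open scoped Convex

namespace Pool.Agent.TH833.Gor

/-- several-variable identity theorem on a convex open set, in the form of vanishing near a point -/
theorem ball_identity {n : ℕ} {h : (Fin n → ℂ) → ℂ} {B : Set (Fin n → ℂ)} (hB : IsOpen B)
    (hcv : Convex ℝ B) (hh : DifferentiableOn ℂ h B) {x₀ : Fin n → ℂ} (hx₀ : x₀ ∈ B)
    (h0 : ∀ᶠ x in 𝓝 x₀, h x = 0) : ∀ x ∈ B, h x = 0 := by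
  intro x hx
  set ℓ : ℂ → (Fin n → ℂ) := fun t => x₀ + t • (x - x₀) with hℓ
  have hℓd : Differentiable ℂ ℓ := by
    intro t
    exact (differentiableAt_const _).add (differentiableAt_id.smul_const _)
  have hℓc : Continuous ℓ := hℓd.continuous
  set S : Set ℂ := ℓ ⁻¹' B with hS
  have hSo : IsOpen S := hB.preimage hℓc
  have hScv : Convex ℝ S := by
    intro a ha b hb s t hs ht hst
    have := hcv ha hb hs ht hst
    change ℓ (s • a + t • b) ∈ B
    have e : ℓ (s • a + t • b) = s • ℓ a + t • ℓ b := by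
      have ht' : t = 1 - s := by linarith
      subst ht'
      simp only [hℓ]
      ext i
      simp only [Pi.add_apply, Pi.smul_apply, Pi.sub_apply, smul_eq_mul, Complex.real_smul]
      push_cast
      ring
    rw [e]
    exact this
  have h0S : (0 : ℂ) ∈ S := by
    change ℓ 0 ∈ B
    simpa [hℓ] using hx₀
  have h1S : (1 : ℂ) ∈ S := by
    change ℓ 1 ∈ B
    simpa [hℓ] using hx
  have hd : DifferentiableOn ℂ (h ∘ ℓ) S := hh.comp hℓd.differentiableOn (fun t ht => ht)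
  have han : AnalyticOnNhd ℂ (h ∘ ℓ) S := hd.analyticOnNhd hSo
  have hev : (h ∘ ℓ) =ᶠ[𝓝 (0 : ℂ)] 0 := by
    have : Filter.Tendsto ℓ (𝓝 0) (𝓝 x₀) := by
      have := hℓc.tendsto 0
      simpa [hℓ] using this
    exact this.eventually h0
  have := han.eqOn_zero_of_preconnected_of_eventuallyEq_zero hScv.isPreconnected h0S hev h1S
  simpa [hℓ] using this

/-- Job F1: identity theorem. -/
theorem identity {m : ℕ} {Y : Set (Fin m → ℂ)} (hc : HasCharts Y) (hconn : IsConnected Y)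
    {u : (Fin m → ℂ) → ℂ} (hu : HolOn Y u) {V : Set (Fin m → ℂ)} (hV : IsOpen V)
    (hne : (Y ∩ V).Nonempty) (h0 : ∀ y ∈ Y ∩ V, u y = 0) : ∀ y ∈ Y, u y = 0 := by
  have : PreconnectedSpace Y := isPreconnected_iff_preconnectedSpace.mp hconn.isPreconnected
  let A : Set Y := {y | ∀ᶠ z in 𝓝 (y : Y), u z.1 = 0}
  have hAo : IsOpen A := by
    rw [isOpen_iff_mem_nhds]
    intro y hy
    exact eventually_eventually_nhds.mpr hy
  have hAne : A.Nonempty := by
    obtain ⟨y, hyY, hyV⟩ := hne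
    refine ⟨⟨y, hyY⟩, ?_⟩
    have : ∀ᶠ z in 𝓝 (⟨y, hyY⟩ : Y), z.1 ∈ V :=
      (continuous_subtype_val.tendsto _).eventually (hV.mem_nhds hyV)
    filter_upwards [this] with z hz
    exact h0 z.1 ⟨z.2, hz⟩
  have key : ∀ p : Y, p ∈ closure A → ∃ V' : Set (Fin m → ℂ), IsOpen V' ∧ p.1 ∈ V' ∧
      ∀ y ∈ Y ∩ V', u y = 0 := by
    intro p hp
    obtain ⟨U, hUo, hpU, h, hhd, hhe⟩ := hu p.1 p.2
    obtain ⟨n, ψ, κ, V', hV'o, hpV', hV'U, hψd, hψ0, hψi, hκc, hκ⟩ :=
      hc p.1 p.2 U (hUo.mem_nhds hpU)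
    refine ⟨V', hV'o, hpV', ?_⟩
    -- a point of A in V'
    have hW : IsOpen ((Subtype.val : Y → _) ⁻¹' V') := hV'o.preimage continuous_subtype_val
    obtain ⟨a, haV, haA⟩ := mem_closure_iff.mp hp _ hW hpV'
    have haim : a.1 ∈ ψ '' ball 0 1 := by
      rw [hψi]; exact ⟨a.2, haV⟩
    obtain ⟨x₀, hx₀, hx₀a⟩ := haim
    have hψY : ∀ x ∈ ball (0 : Fin n → ℂ) 1, ψ x ∈ Y ∩ V' := by
      intro x hx; rw [← hψi]; exact ⟨x, hx, rfl⟩
    have hcomp : DifferentiableOn ℂ (h ∘ ψ) (ball 0 1) :=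
      hhd.comp hψd (fun x hx => hV'U (hψY x hx).2)
    have hev : ∀ᶠ x in 𝓝 x₀, (h ∘ ψ) x = 0 := by
      have hA' : ∀ᶠ z in 𝓝[Y] a.1, u z = 0 := by
        have := haA
        change ∀ᶠ z in 𝓝 (a : Y), u z.1 = 0 at this
        rw [nhds_subtype_eq_comap] at this
        rw [Filter.eventually_comap] at this
        rw [eventually_nhdsWithin_iff]
        filter_upwards [this] with z hz hzY
        exact hz ⟨z, hzY⟩ rfl
      have hψc : Filter.Tendsto ψ (𝓝 x₀) (𝓝[Y] a.1) := by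
        rw [tendsto_nhdsWithin_iff]
        constructor
        · rw [← hx₀a]
          exact (hψd.continuousOn.continuousAt (isOpen_ball.mem_nhds hx₀)).tendsto
        · filter_upwards [isOpen_ball.mem_nhds hx₀] with x hx
          exact (hψY x hx).1
      filter_upwards [hψc.eventually hA', isOpen_ball.mem_nhds hx₀] with x hx hxb
      change h (ψ x) = 0
      rw [hhe (ψ x) (hψY x hxb).1 (hV'U (hψY x hxb).2)]
      exact hx
    have hall := ball_identity isOpen_ball (convex_ball _ _) hcomp hx₀ hev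
    intro y hy
    have : y ∈ ψ '' ball 0 1 := by rw [hψi]; exact hy
    obtain ⟨x, hx, rfl⟩ := this
    rw [← hhe (ψ x) hy.1 (hV'U hy.2)]
    exact hall x hx
  have hAc : IsClosed A := by
    rw [← closure_subset_iff_isClosed]
    intro p hp
    obtain ⟨V', hV'o, hpV', hz⟩ := key p hp
    have : ∀ᶠ z in 𝓝 (p : Y), z.1 ∈ V' :=
      (continuous_subtype_val.tendsto _).eventually (hV'o.mem_nhds hpV')
    change ∀ᶠ z in 𝓝 (p : Y), u z.1 = 0
    filter_upwards [this] with z hz'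
    exact hz z.1 ⟨z.2, hz'⟩
  have hAu : A = univ := IsClopen.eq_univ ⟨hAc, hAo⟩ hAne
  intro y hy
  have : (⟨y, hy⟩ : Y) ∈ A := by rw [hAu]; trivial
  exact this.self_of_nhds


/-- an open convex set minus a countable set is preconnected (real dimension `> 1`) -/
theorem preconnected_diff_countable {E : Type*} [AddCommGroup E] [Module ℝ E]
    [TopologicalSpace E] [ContinuousAdd E] [ContinuousSMul ℝ E]
    (h : 1 < Module.rank ℝ E) {S s : Set E} (hSo : IsOpen S) (hS : Convex ℝ S)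
    (hs : s.Countable) : IsPreconnected (S \ s) := by
  apply isPreconnected_of_forall_pair
  intro a ha b hb
  suffices hJ : JoinedIn (S \ s) a b by
    obtain ⟨γ, hγ⟩ := hJ
    refine ⟨range γ, ?_, ⟨0, by simp⟩, ⟨1, by simp⟩, isPreconnected_range γ.continuous⟩
    rintro _ ⟨t, rfl⟩
    exact hγ t
  have : Nontrivial E := (rank_pos_iff_nontrivial (R := ℝ)).1 (zero_lt_one.trans h)
  rcases eq_or_ne a b with rfl | hab
  · exact JoinedIn.refl ha
  let c := (2 : ℝ)⁻¹ • (a + b)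
  let x := (2 : ℝ)⁻¹ • (b - a)
  have Ia : c - x = a := by
    simp only [c, x]
    module
  have Ib : c + x = b := by
    simp only [c, x]
    module
  have x_ne_zero : x ≠ 0 := by simpa [x] using sub_ne_zero.2 hab.symm
  obtain ⟨y, hy⟩ : ∃ y, LinearIndependent ℝ ![x, y] :=
    exists_linearIndependent_pair_of_one_lt_rank h x_ne_zero
  have A : Set.Countable {t : ℝ | ([c + x -[ℝ] c + t • y] ∩ s).Nonempty} := by
    apply countable_ofPred_nonempty_of_disjoint _ (fun t ↦ inter_subset_right) hs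
    intro t t' htt'
    apply disjoint_iff_inter_eq_empty.2
    have N : {c + x} ∩ s = ∅ := by
      simpa only [singleton_inter_eq_empty, mem_compl_iff, Ib] using hb.2
    rw [inter_assoc, inter_comm s, inter_assoc, inter_self, ← inter_assoc, ← subset_empty_iff, ← N]
    apply inter_subset_inter_left
    apply Eq.subset
    apply segment_inter_eq_endpoint_of_linearIndependent_of_ne hy htt'.symm
  have B : Set.Countable {t : ℝ | ([c - x -[ℝ] c + t • y] ∩ s).Nonempty} := by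
    apply countable_ofPred_nonempty_of_disjoint _ (fun t ↦ inter_subset_right) hs
    intro t t' htt'
    apply disjoint_iff_inter_eq_empty.2
    have N : {c - x} ∩ s = ∅ := by
      simpa only [singleton_inter_eq_empty, mem_compl_iff, Ia] using ha.2
    rw [inter_assoc, inter_comm s, inter_assoc, inter_self, ← inter_assoc, ← subset_empty_iff, ← N]
    apply inter_subset_inter_left
    rw [sub_eq_add_neg _ x]
    apply Eq.subset
    apply segment_inter_eq_endpoint_of_linearIndependent_of_ne _ htt'.symm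
    convert! hy.units_smul ![-1, 1]
    simp [← List.ofFn_inj]
  have hcS : c ∈ S := by
    have := hS ha.1 hb.1 (a := (2 : ℝ)⁻¹) (b := (2 : ℝ)⁻¹) (by norm_num) (by norm_num)
      (by norm_num)
    simpa [c, smul_add] using this
  have hTo : IsOpen {t : ℝ | c + t • y ∈ S} := by
    have : Continuous fun t : ℝ => c + t • y := by fun_prop
    exact hSo.preimage this
  obtain ⟨t, htS, ht⟩ : ∃ t ∈ {t : ℝ | c + t • y ∈ S},
      t ∈ ({t : ℝ | ([c + x -[ℝ] c + t • y] ∩ s).Nonempty}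
      ∪ {t : ℝ | ([c - x -[ℝ] c + t • y] ∩ s).Nonempty})ᶜ :=
    ((A.union B).dense_compl ℝ).exists_mem_open hTo ⟨0, by simpa using hcS⟩ |>.imp
      (fun t ht => ⟨ht.2, ht.1⟩)
  let z := c + t • y
  simp only [compl_union, mem_inter_iff, mem_compl_iff, mem_ofPred_eq, not_nonempty_iff_eq_empty]
    at ht
  have JA : JoinedIn (S \ s) a z := by
    apply JoinedIn.of_segment_subset
    apply subset_sdiff.mpr
    refine ⟨hS.segment_subset ha.1 htS, ?_⟩
    rw [disjoint_iff_inter_eq_empty]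
    convert! ht.2
    exact Ia.symm
  have JB : JoinedIn (S \ s) b z := by
    apply JoinedIn.of_segment_subset
    apply subset_sdiff.mpr
    refine ⟨hS.segment_subset hb.1 htS, ?_⟩
    rw [disjoint_iff_inter_eq_empty]
    convert! ht.1
    exact Ib.symm
  exact JA.trans JB.symm

/-- the zero set of a holomorphic function on a connected open set is countable -/
theorem countable_zeros {G : ℂ → ℂ} {S : Set ℂ} (hSo : IsOpen S) (hS : IsConnected S)
    (hG : DifferentiableOn ℂ G S) {t₀ : ℂ} (ht₀ : t₀ ∈ S) (hne : G t₀ ≠ 0) :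
    {t | t ∈ S ∧ G t = 0}.Countable := by
  have han : AnalyticOnNhd ℂ G S := hG.analyticOnNhd hSo
  have h1 := han.preimage_zero_mem_codiscreteWithin hne ht₀ hS
  have hd : IsDiscrete {t | t ∈ S ∧ G t = 0} := by
    have h2 : IsDiscrete ((G ⁻¹' {0}ᶜ)ᶜ ∩ S) :=
      isDiscrete_of_codiscreteWithin (U := S) (s := (G ⁻¹' {0}ᶜ)ᶜ) (by
        rw [compl_compl]; exact h1)
    convert h2 using 1
    ext t
    simp [and_comm]
  exact (HereditarilyLindelofSpace.isLindelof _).countable_of_isDiscrete hd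

/-- the complement of an analytic hypersurface in an open convex set is preconnected -/
theorem preconnected_ne_zero {n : ℕ} {h : (Fin n → ℂ) → ℂ} {B : Set (Fin n → ℂ)}
    (hB : IsOpen B) (hcv : Convex ℝ B) (hh : DifferentiableOn ℂ h B) :
    IsPreconnected {x | x ∈ B ∧ h x ≠ 0} := by
  apply isPreconnected_of_forall_pair
  intro x₀ hx₀ x hx
  set ℓ : ℂ → (Fin n → ℂ) := fun t => x₀ + t • (x - x₀) with hℓ
  have hℓd : Differentiable ℂ ℓ := by
    intro t
    exact (differentiableAt_const _).add (differentiableAt_id.smul_const _)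
  have hℓc : Continuous ℓ := hℓd.continuous
  set S : Set ℂ := ℓ ⁻¹' B with hS
  have hSo : IsOpen S := hB.preimage hℓc
  have hScv : Convex ℝ S := by
    intro a ha b hb s t hs ht hst
    have := hcv ha hb hs ht hst
    change ℓ (s • a + t • b) ∈ B
    have e : ℓ (s • a + t • b) = s • ℓ a + t • ℓ b := by
      have ht' : t = 1 - s := by linarith
      subst ht'
      simp only [hℓ]
      ext i
      simp only [Pi.add_apply, Pi.smul_apply, Pi.sub_apply, smul_eq_mul, Complex.real_smul]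
      push_cast
      ring
    rw [e]
    exact this
  have e0 : ℓ 0 = x₀ := by simp [hℓ]
  have e1 : ℓ 1 = x := by simp [hℓ]
  have h0S : (0 : ℂ) ∈ S := by
    change ℓ 0 ∈ B
    rw [e0]; exact hx₀.1
  have h1S : (1 : ℂ) ∈ S := by
    change ℓ 1 ∈ B
    rw [e1]; exact hx.1
  have hd : DifferentiableOn ℂ (h ∘ ℓ) S := hh.comp hℓd.differentiableOn (fun t ht => ht)
  have hSc : IsConnected S := ⟨⟨0, h0S⟩, hScv.isPreconnected⟩
  have hcount := countable_zeros hSo hSc hd h0S (by simpa [e0] using hx₀.2)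
  have hpre := preconnected_diff_countable
    (by rw [Complex.rank_real_complex]; exact_mod_cast one_lt_two) hSo hScv hcount
  refine ⟨ℓ '' (S \ {t | t ∈ S ∧ (h ∘ ℓ) t = 0}), ?_, ?_, ?_, hpre.image _ hℓc.continuousOn⟩
  · rintro _ ⟨t, ⟨htS, htn⟩, rfl⟩
    exact ⟨htS, fun h0 => htn ⟨htS, h0⟩⟩
  · exact ⟨0, ⟨h0S, fun h0 => hx₀.2 (by simpa [e0] using h0.2)⟩, e0⟩
  · exact ⟨1, ⟨h1S, fun h0 => hx.2 (by simpa [e1] using h0.2)⟩, e1⟩

/-- local extension of the logarithm -/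
theorem local_log {m : ℕ} {Y : Set (Fin m → ℂ)} (hc : HasCharts Y)
    {F : (Fin m → ℂ) → ℂ} (hF : HolOn Y F)
    {g : (Fin m → ℂ) → ℂ} (hg : ContinuousOn g Y) (hg0 : ∀ y ∈ Y, g y ≠ 0)
    {h₀ : (Fin m → ℂ) → ℂ} (hh₀ : ContinuousOn h₀ {y | y ∈ Y ∧ F y ≠ 0})
    (he₀ : ∀ y ∈ {y | y ∈ Y ∧ F y ≠ 0}, Complex.exp (h₀ y) = g y)
    (hdense : ∀ p ∈ Y, ∀ V : Set (Fin m → ℂ), IsOpen V → p ∈ V →
      ∃ y ∈ Y ∩ V, F y ≠ 0) {p : Fin m → ℂ} (hp : p ∈ Y) :
    ∃ V : Set (Fin m → ℂ), IsOpen V ∧ p ∈ V ∧ ∃ L : (Fin m → ℂ) → ℂ,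
      ContinuousOn L (Y ∩ V) ∧ (∀ y ∈ Y ∩ V, Complex.exp (L y) = g y) ∧
      ∀ y ∈ Y ∩ V, F y ≠ 0 → L y = h₀ y := by
  obtain ⟨U, hUo, hpU, f, hfd, hfe⟩ := hF p hp
  -- small quotient
  have hq : ContinuousOn (fun y => g y / g p) Y := hg.div_const _
  have hN : ∀ᶠ y in 𝓝[Y] p, g y / g p ∈ Complex.slitPlane := by
    have h1 : g p / g p ∈ Complex.slitPlane := by
      rw [div_self (hg0 p hp)]
      exact Complex.one_mem_slitPlane
    exact (hq p hp).eventually (Complex.isOpen_slitPlane.mem_nhds h1)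
  rw [eventually_nhdsWithin_iff] at hN
  obtain ⟨n, ψ, κ, V, hVo, hpV, hVsub, hψd, hψ0, hψi, hκc, hκ⟩ :=
    hc p hp ({y | y ∈ Y → g y / g p ∈ Complex.slitPlane} ∩ U)
      (Filter.inter_mem hN (hUo.mem_nhds hpU))
  have hψY : ∀ x ∈ ball (0 : Fin n → ℂ) 1, ψ x ∈ Y ∩ V := by
    intro x hx; rw [← hψi]; exact ⟨x, hx, rfl⟩
  set L₁ : (Fin m → ℂ) → ℂ := fun y => Complex.log (g p) + Complex.log (g y / g p) with hL₁
  have hL₁c : ContinuousOn L₁ (Y ∩ V) := by
    refine continuousOn_const.add ?_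
    refine (hq.mono inter_subset_left).clog ?_
    intro y hy
    exact (hVsub hy.2).1 hy.1
  have hL₁e : ∀ y ∈ Y ∩ V, Complex.exp (L₁ y) = g y := by
    intro y hy
    have hgp := hg0 p hp
    simp only [hL₁]
    rw [Complex.exp_add, Complex.exp_log hgp, Complex.exp_log (div_ne_zero (hg0 y hy.1) hgp)]
    field_simp
  have hcomp : DifferentiableOn ℂ (f ∘ ψ) (ball 0 1) :=
    hfd.comp hψd (fun x hx => (hVsub (hψY x hx).2).2)
  have hpre := preconnected_ne_zero isOpen_ball (convex_ball _ _) hcomp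
  set T : Set (Fin m → ℂ) := {y | y ∈ Y ∩ V ∧ F y ≠ 0} with hT
  have hTim : T = ψ '' {x | x ∈ ball (0 : Fin n → ℂ) 1 ∧ (f ∘ ψ) x ≠ 0} := by
    ext y
    constructor
    · rintro ⟨hy, hFy⟩
      have : y ∈ ψ '' ball 0 1 := by rw [hψi]; exact hy
      obtain ⟨x, hx, rfl⟩ := this
      refine ⟨x, ⟨hx, ?_⟩, rfl⟩
      change f (ψ x) ≠ 0
      rw [hfe _ hy.1 (hVsub hy.2).2]
      exact hFy
    · rintro ⟨x, ⟨hx, hfx⟩, rfl⟩
      refine ⟨hψY x hx, ?_⟩
      rw [← hfe _ (hψY x hx).1 (hVsub (hψY x hx).2).2]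
      exact hfx
  have hTpre : IsPreconnected T := by
    rw [hTim]
    exact hpre.image _ (hψd.continuousOn.mono (fun x hx => hx.1))
  obtain ⟨a, haYV, haF⟩ := hdense p hp V hVo hpV
  have haT : a ∈ T := ⟨haYV, haF⟩
  have hdc : ContinuousOn (fun y => h₀ y - L₁ y) T := by
    refine (hh₀.mono ?_).sub (hL₁c.mono ?_)
    · intro y hy; exact ⟨hy.1.1, hy.2⟩
    · intro y hy; exact hy.1
  have hexp1 : ∀ y ∈ T, Complex.exp (h₀ y - L₁ y) = 1 := by
    intro y hy
    rw [Complex.exp_sub, he₀ y ⟨hy.1.1, hy.2⟩, hL₁e y hy.1, div_self (hg0 y hy.1.1)]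
  have hconst : ∀ y ∈ T, h₀ y - L₁ y = h₀ a - L₁ a := by
    intro y hy
    refine Complex.isCoveringMap_exp.constOn_of_comp (g := fun y => h₀ y - L₁ y) hTpre hdc ?_ hy haT
    intro b hb b' hb'
    apply Subtype.ext
    simp only
    rw [hexp1 b hb, hexp1 b' hb']
  refine ⟨V, hVo, hpV, fun y => L₁ y + (h₀ a - L₁ a), hL₁c.add continuousOn_const, ?_, ?_⟩
  · intro y hy
    rw [Complex.exp_add, hL₁e y hy, hexp1 a haT, mul_one]
  · intro y hy hFy
    rw [← hconst y ⟨hy, hFy⟩]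
    ring

/-- Job F2: a continuous logarithm extends across the zero set of a holomorphic function. -/
theorem extend_log {m : ℕ} {Y : Set (Fin m → ℂ)} (hc : HasCharts Y) (hconn : IsConnected Y)
    {F : (Fin m → ℂ) → ℂ} (hF : HolOn Y F) (hF0 : ∃ y ∈ Y, F y ≠ 0)
    {g : (Fin m → ℂ) → ℂ} (hg : ContinuousOn g Y) (hg0 : ∀ y ∈ Y, g y ≠ 0)
    (hlog : HasLog {y | y ∈ Y ∧ F y ≠ 0} g) : HasLog Y g := by
  classical
  obtain ⟨h₀, hh₀, he₀⟩ := hlog
  have hdense : ∀ p ∈ Y, ∀ V : Set (Fin m → ℂ), IsOpen V → p ∈ V → ∃ y ∈ Y ∩ V, F y ≠ 0 := by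
    intro p hp V hV hpV
    by_contra hcon
    push Not at hcon
    obtain ⟨y, hy, hFy⟩ := hF0
    exact hFy (identity hc hconn hF hV ⟨p, hp, hpV⟩ hcon y hy)
  have hloc : ∀ p : Fin m → ℂ, ∃ (V : Set (Fin m → ℂ)) (L : (Fin m → ℂ) → ℂ), p ∈ Y →
      IsOpen V ∧ p ∈ V ∧ ContinuousOn L (Y ∩ V) ∧ (∀ y ∈ Y ∩ V, Complex.exp (L y) = g y) ∧
      ∀ y ∈ Y ∩ V, F y ≠ 0 → L y = h₀ y := by
    intro p
    by_cases hp : p ∈ Y
    · obtain ⟨V, h1, h2, L, h3, h4, h5⟩ := local_log hc hF hg hg0 hh₀ he₀ hdense hp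
      exact ⟨V, L, fun _ => ⟨h1, h2, h3, h4, h5⟩⟩
    · exact ⟨∅, 0, fun h => absurd h hp⟩
  choose V L hVL using hloc
  refine ⟨fun p => L p p, ?_, ?_⟩
  · -- continuity
    intro p hp
    obtain ⟨h1, h2, h3, h4, h5⟩ := hVL p hp
    have heq : ∀ y ∈ Y ∩ V p, L y y = L p y := by
      intro y hy
      obtain ⟨k1, k2, k3, k4, k5⟩ := hVL y hy.1
      have hNB : (𝓝[{y | y ∈ Y ∧ F y ≠ 0}] y).NeBot := by
        rw [← mem_closure_iff_nhdsWithin_neBot, _root_.mem_closure_iff]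
        intro W hW hyW
        obtain ⟨z, hz, hFz⟩ := hdense y hy.1 W hW hyW
        exact ⟨z, hz.2, hz.1, hFz⟩
      have hle : 𝓝[{y | y ∈ Y ∧ F y ≠ 0}] y ≤ 𝓝[Y] y :=
        nhdsWithin_mono _ (fun z hz => hz.1)
      have t1 : Filter.Tendsto (L y) (𝓝[{y | y ∈ Y ∧ F y ≠ 0}] y) (𝓝 (L y y)) := by
        have : ContinuousWithinAt (L y) Y y :=
          (k3 y ⟨hy.1, k2⟩).mono_of_mem_nhdsWithin (inter_mem_nhdsWithin _ (k1.mem_nhds k2))
        exact this.tendsto.mono_left hle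
      have t2 : Filter.Tendsto (L p) (𝓝[{y | y ∈ Y ∧ F y ≠ 0}] y) (𝓝 (L p y)) := by
        have : ContinuousWithinAt (L p) Y y :=
          (h3 y hy).mono_of_mem_nhdsWithin (inter_mem_nhdsWithin _ (h1.mem_nhds hy.2))
        exact this.tendsto.mono_left hle
      refine tendsto_nhds_unique_of_eventuallyEq t1 t2 ?_
      have e1 : ∀ᶠ z in 𝓝[{y | y ∈ Y ∧ F y ≠ 0}] y, z ∈ V y :=
        nhdsWithin_le_nhds (k1.mem_nhds k2)
      have e2 : ∀ᶠ z in 𝓝[{y | y ∈ Y ∧ F y ≠ 0}] y, z ∈ V p :=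
        nhdsWithin_le_nhds (h1.mem_nhds hy.2)
      filter_upwards [e1, e2, self_mem_nhdsWithin] with z hz1 hz2 hz3
      rw [k5 z ⟨hz3.1, hz1⟩ hz3.2, h5 z ⟨hz3.1, hz2⟩ hz3.2]
    have hcL : ContinuousWithinAt (L p) Y p :=
      (h3 p ⟨hp, h2⟩).mono_of_mem_nhdsWithin (inter_mem_nhdsWithin _ (h1.mem_nhds h2))
    refine hcL.congr_of_eventuallyEq ?_ rfl
    have e2 : ∀ᶠ z in 𝓝[Y] p, z ∈ V p := nhdsWithin_le_nhds (h1.mem_nhds h2)
    filter_upwards [e2, self_mem_nhdsWithin] with z hz1 hz2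
    exact heq z ⟨hz2, hz1⟩
  · intro p hp
    obtain ⟨h1, h2, h3, h4, h5⟩ := hVL p hp
    exact h4 p ⟨hp, h2⟩

end Pool.Agent.TH833.Gor
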