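import Pool.Agent.Helper113.Gorin.Defs

set_option autoImplicit false

open Metric Set Topology H113G

namespace Pool.Agent.TH833.Gor

/-- Job G: the covering of logarithms. -/
theorem covering {m k ρ : ℕ} {Y : Set (Fin m → ℂ)} {pr : (Fin m → ℂ) → (Fin k → ℂ)}
    {δ : MvPolynomial (Fin k) ℂ} {e : ℕ} (h : Cov Y pr δ e)
    (g : Fin ρ → (Fin m → ℂ) → ℂ) (hg : ∀ i, ContinuousOn (g i) Y)
    (hg0 : ∀ i, ∀ y ∈ Y, g i y ≠ 0) :
    IsCoveringMap (fun w : {w : (Fin m → ℂ) × (Fin ρ → ℂ) // w.1 ∈ Y ∧
      MvPolynomial.eval (pr w.1) δ ≠ 0 ∧ ∀ i, Complex.exp (w.2 i) = g i w.1} =>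
      (⟨pr w.1.1, w.2.2.1⟩ : Sp δ)) := by
  intro z
  set q : {w : (Fin m → ℂ) × (Fin ρ → ℂ) // w.1 ∈ Y ∧
      MvPolynomial.eval (pr w.1) δ ≠ 0 ∧ ∀ i, Complex.exp (w.2 i) = g i w.1} → Sp δ :=
      (fun w => (⟨pr w.1.1, w.2.2.1⟩ : Sp δ)) with hq
  have hprc : Continuous pr := h.diff.continuous
  have hqc : Continuous q :=
    Continuous.subtype_mk (hprc.comp (continuous_fst.comp continuous_subtype_val)) _
  obtain ⟨r, hr, s, hsd, hs⟩ := h.sections z.1 z.2
  have hsc : ∀ i, ContinuousOn (s i) (ball z.1 r) := fun i => (hsd i).continuousOn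
  have hsY : ∀ z' ∈ ball z.1 r, ∀ i, s i z' ∈ Y ∧ pr (s i z') = z' := by
    intro z' hz' i
    have : s i z' ∈ {y | y ∈ Y ∧ pr y = z'} := by rw [(hs z' hz').2.2]; exact ⟨i, rfl⟩
    exact this
  have hzr : z.1 ∈ ball z.1 r := mem_ball_self hr
  have hgs : ∀ i j, ContinuousOn (fun z' => g j (s i z')) (ball z.1 r) := by
    intro i j
    exact (hg j).comp (hsc i) (fun z' hz' => (hsY z' hz' i).1)
  have hev : ∀ᶠ z' in 𝓝 z.1, z' ∈ ball z.1 r ∧
      ∀ i j, g j (s i z') / g j (s i z.1) ∈ Complex.slitPlane := by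
    have hb : ∀ᶠ z' in 𝓝 z.1, z' ∈ ball z.1 r := isOpen_ball.mem_nhds hzr
    refine hb.and ?_
    rw [Filter.eventually_all]
    intro i
    rw [Filter.eventually_all]
    intro j
    have hc : ContinuousAt (fun z' => g j (s i z') / g j (s i z.1)) z.1 :=
      ((hgs i j).continuousAt (isOpen_ball.mem_nhds hzr)).div_const _
    refine hc.eventually (Complex.isOpen_slitPlane.mem_nhds ?_)
    have h1 : g j (s i z.1) / g j (s i z.1) = 1 := div_self (hg0 j _ (hsY z.1 hzr i).1)
    change g j (s i z.1) / g j (s i z.1) ∈ Complex.slitPlane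
    rw [h1]
    exact Complex.one_mem_slitPlane
  obtain ⟨B, hBsub, hBo, hzB⟩ := _root_.mem_nhds_iff.mp hev
  have hBr : ∀ z' ∈ B, z' ∈ ball z.1 r := fun z' hz' => (hBsub hz').1
  set L : Fin e → Fin ρ → (Fin k → ℂ) → ℂ := fun i j z' =>
    Complex.log (g j (s i z.1)) + Complex.log (g j (s i z') / g j (s i z.1)) with hL
  have hLc : ∀ i j, ContinuousOn (L i j) B := by
    intro i j
    refine continuousOn_const.add (ContinuousOn.clog ?_ ?_)
    · exact ((hgs i j).mono hBr).div_const _
    · intro z' hz'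
      exact (hBsub hz').2 i j
  have hLe : ∀ i j, ∀ z' ∈ B, Complex.exp (L i j z') = g j (s i z') := by
    intro i j z' hz'
    have h1 := hg0 j _ (hsY z.1 hzr i).1
    have h2 := hg0 j _ (hsY z' (hBr z' hz') i).1
    simp only [hL]
    rw [Complex.exp_add, Complex.exp_log h1, Complex.exp_log (div_ne_zero h2 h1)]
    field_simp
  have h2pi : (2 * Real.pi * Complex.I : ℂ) ≠ 0 := by
    simp [Real.pi_ne_zero]
  set U : Set (Sp δ) := Subtype.val ⁻¹' B with hU
  have hUo : IsOpen U := hBo.preimage continuous_subtype_val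
  -- the inverse trivialization
  let K : U × (Fin e × (Fin ρ → ℤ)) → q ⁻¹' U := fun x =>
    ⟨⟨(s x.2.1 x.1.1.1, fun j => L x.2.1 j x.1.1.1 + (x.2.2 j) * (2 * Real.pi * Complex.I)), by
      have hx : x.1.1.1 ∈ B := x.1.2
      refine ⟨(hsY _ (hBr _ hx) _).1, ?_, ?_⟩
      · rw [(hsY _ (hBr _ hx) _).2]; exact x.1.1.2
      · intro j
        simp only
        rw [Complex.exp_add, hLe _ _ _ hx, Complex.exp_int_mul_two_pi_mul_I, mul_one]⟩, by
      have hx : x.1.1.1 ∈ B := x.1.2
      change pr (s x.2.1 x.1.1.1) ∈ B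
      rw [(hsY _ (hBr _ hx) _).2]; exact hx⟩
  have hK1 : ∀ x, (K x).1.1.1 = s x.2.1 x.1.1.1 := fun x => rfl
  have hK2 : ∀ x j, (K x).1.1.2 j = L x.2.1 j x.1.1.1 + (x.2.2 j) * (2 * Real.pi * Complex.I) :=
    fun x j => rfl
  have hKpr : ∀ x, (q (K x).1).1 = x.1.1.1 := by
    intro x
    change pr (s x.2.1 x.1.1.1) = _
    exact (hsY _ (hBr _ x.1.2) _).2
  have hKinj : Function.Injective K := by
    intro x x' hxx
    have e1 : x.1 = x'.1 := by
      apply Subtype.ext
      apply Subtype.ext
      rw [← hKpr x, ← hKpr x', hxx]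
    have e2 : x.2.1 = x'.2.1 := by
      apply (hs x.1.1.1 (hBr _ x.1.2)).2.1
      simp only
      rw [← hK1 x, hxx, hK1 x', e1]
    have e3 : x.2.2 = x'.2.2 := by
      funext j
      have h3 : (K x).1.1.2 j = (K x').1.1.2 j := by rw [hxx]
      rw [hK2, hK2, e1, e2] at h3
      have h4 := mul_right_cancel₀ h2pi (add_left_cancel h3)
      exact_mod_cast h4
    exact Prod.ext e1 (Prod.ext e2 e3)
  have hKsurj : Function.Surjective K := by
    intro w
    have hwB : pr w.1.1.1 ∈ B := w.2
    have hwY : w.1.1.1 ∈ Y := w.1.2.1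
    have : w.1.1.1 ∈ Set.range (fun i => s i (pr w.1.1.1)) := by
      rw [← (hs _ (hBr _ hwB)).2.2]; exact ⟨hwY, rfl⟩
    obtain ⟨i, hi⟩ := this
    simp only at hi
    have hn : ∀ j, ∃ n : ℤ, w.1.1.2 j = L i j (pr w.1.1.1) + n * (2 * Real.pi * Complex.I) := by
      intro j
      apply Complex.exp_eq_exp_iff_exists_int.mp
      rw [w.1.2.2.2 j, hLe i j _ hwB, hi]
    choose n hn using hn
    refine ⟨(⟨⟨pr w.1.1.1, w.1.2.2.1⟩, hwB⟩, (i, n)), ?_⟩
    apply Subtype.ext
    apply Subtype.ext
    apply Prod.ext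
    · exact hi
    · funext j
      exact (hn j).symm
  have hKc : Continuous K := by
    refine Continuous.subtype_mk (Continuous.subtype_mk (Continuous.prodMk ?_ ?_) _) _
    · rw [continuous_iff_continuousAt]
      rintro ⟨a, i, n⟩
      have hloc : ∀ᶠ x : U × (Fin e × (Fin ρ → ℤ)) in 𝓝 (a, i, n), x.2 = (i, n) := by
        have h1 : ∀ᶠ x : Fin e × (Fin ρ → ℤ) in 𝓝 (i, n), x = (i, n) := by
          rw [nhds_discrete]; simp
        have h2 : Filter.Tendsto (fun x : U × (Fin e × (Fin ρ → ℤ)) => x.2) (𝓝 (a, i, n))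
          (𝓝 (i, n)) := continuous_snd.continuousAt
        exact h2.eventually h1
      have hc : ContinuousAt (fun x : U × (Fin e × (Fin ρ → ℤ)) => s i x.1.1.1) (a, i, n) := by
        have h1 : ContinuousAt (s i) a.1.1 :=
          (hsc i).continuousAt (isOpen_ball.mem_nhds (hBr _ a.2))
        exact ContinuousAt.comp (f := fun x : U × (Fin e × (Fin ρ → ℤ)) => x.1.1.1)
          (x := (a, i, n)) h1
          (continuous_subtype_val.comp (continuous_subtype_val.comp continuous_fst)).continuousAt
      refine hc.congr ?_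
      filter_upwards [hloc] with x hx
      rw [hx]
    · rw [continuous_pi_iff]
      intro j
      rw [continuous_iff_continuousAt]
      rintro ⟨a, i, n⟩
      have hloc : ∀ᶠ x : U × (Fin e × (Fin ρ → ℤ)) in 𝓝 (a, i, n), x.2 = (i, n) := by
        have h1 : ∀ᶠ x : Fin e × (Fin ρ → ℤ) in 𝓝 (i, n), x = (i, n) := by
          rw [nhds_discrete]; simp
        have h2 : Filter.Tendsto (fun x : U × (Fin e × (Fin ρ → ℤ)) => x.2) (𝓝 (a, i, n))
          (𝓝 (i, n)) := continuous_snd.continuousAt
        exact h2.eventually h1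
      have hc : ContinuousAt (fun x : U × (Fin e × (Fin ρ → ℤ)) =>
          L i j x.1.1.1 + (n j) * (2 * Real.pi * Complex.I)) (a, i, n) := by
        have h1 : ContinuousAt (L i j) a.1.1 :=
          (hLc i j).continuousAt (hBo.mem_nhds a.2)
        refine ContinuousAt.add ?_ continuousAt_const
        exact ContinuousAt.comp (f := fun x : U × (Fin e × (Fin ρ → ℤ)) => x.1.1.1)
          (x := (a, i, n)) h1
          (continuous_subtype_val.comp (continuous_subtype_val.comp continuous_fst)).continuousAt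
      refine hc.congr ?_
      filter_upwards [hloc] with x hx
      rw [hx]
  let E := Equiv.ofBijective K ⟨hKinj, hKsurj⟩
  have hEK : ∀ w, K (E.symm w) = w := fun w => E.apply_symm_apply w
  have hE1 : ∀ w, (E.symm w).1.1 = q w.1 := by
    intro w
    apply Subtype.ext
    rw [← hKpr, hEK]
  have hEc : Continuous E.symm := by
    rw [continuous_iff_continuousAt]
    intro w₀
    have hfst : ContinuousAt (fun w => (E.symm w).1) w₀ := by
      have : (fun w => (E.symm w).1) = fun w : q ⁻¹' U => (⟨q w.1, w.2⟩ : U) := by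
        funext w
        apply Subtype.ext
        exact hE1 w
      rw [this]
      exact (Continuous.subtype_mk (hqc.comp continuous_subtype_val) _).continuousAt
    set x₀ := E.symm w₀ with hx₀
    have hprw : Continuous fun w : q ⁻¹' U => pr w.1.1.1 :=
      hprc.comp (continuous_fst.comp (continuous_subtype_val.comp continuous_subtype_val))
    have hyw : Continuous fun w : q ⁻¹' U => w.1.1.1 :=
      continuous_fst.comp (continuous_subtype_val.comp continuous_subtype_val)
    have hsw : ∀ w : q ⁻¹' U, s (E.symm w).2.1 (pr w.1.1.1) = w.1.1.1 := by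
      intro w
      have e1 : pr w.1.1.1 = (E.symm w).1.1.1 := (congrArg Subtype.val (hE1 w)).symm
      rw [e1, ← hK1, hEK]
    -- the sheet is locally constant
    have hi : ∀ᶠ w in 𝓝 w₀, (E.symm w).2.1 = x₀.2.1 := by
      have hall : ∀ i : Fin e, ∀ᶠ w in 𝓝 w₀, i ≠ x₀.2.1 → s i (pr w.1.1.1) ≠ w.1.1.1 := by
        intro i
        by_cases hii : i = x₀.2.1
        · exact Filter.Eventually.of_forall fun w hw => absurd hii hw
        · have hne : s i (pr w₀.1.1.1) ≠ w₀.1.1.1 := by
            rw [← hsw w₀]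
            intro h0
            rw [hsw w₀] at h0
            apply hii
            apply (hs (pr w₀.1.1.1) (hBr _ w₀.2)).2.1
            simp only
            rw [h0]
            exact (hsw w₀).symm
          have hc1 : ContinuousAt (fun w : q ⁻¹' U => s i (pr w.1.1.1)) w₀ :=
            ContinuousAt.comp (f := fun w : q ⁻¹' U => pr w.1.1.1)
              ((hsc i).continuousAt (isOpen_ball.mem_nhds (hBr _ w₀.2))) hprw.continuousAt
          have := (hc1.ne_iff_eventually_ne hyw.continuousAt).mp hne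
          filter_upwards [this] with w hw _
          exact hw
      rw [← Filter.eventually_all] at hall
      filter_upwards [hall] with w hw
      by_contra hcon
      exact hw _ hcon (hsw w)
    -- the integers are locally constant
    have hn : ∀ᶠ w in 𝓝 w₀, (E.symm w).2.2 = x₀.2.2 := by
      have hall : ∀ j : Fin ρ, ∀ᶠ w in 𝓝 w₀, (E.symm w).2.1 = x₀.2.1 →
          (E.symm w).2.2 j = x₀.2.2 j := by
        intro j
        have hform : ∀ w : q ⁻¹' U, (E.symm w).2.1 = x₀.2.1 →
            (w.1.1.2 j - L x₀.2.1 j (pr w.1.1.1)) / (2 * Real.pi * Complex.I) =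
              (((E.symm w).2.2 j : ℤ) : ℂ) := by
          intro w hw
          have e1 : pr w.1.1.1 = (E.symm w).1.1.1 := (congrArg Subtype.val (hE1 w)).symm
          have e2 := hK2 (E.symm w) j
          rw [hEK, hw] at e2
          rw [e2, e1]
          field_simp
          ring
        have hc : ContinuousAt (fun w : q ⁻¹' U =>
            (w.1.1.2 j - L x₀.2.1 j (pr w.1.1.1)) / (2 * Real.pi * Complex.I)) w₀ := by
          refine ContinuousAt.div_const (ContinuousAt.sub ?_ ?_) _
          · have : Continuous fun w : q ⁻¹' U => w.1.1.2 j := by fun_prop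
            exact this.continuousAt
          · exact ContinuousAt.comp (f := fun w : q ⁻¹' U => pr w.1.1.1)
              ((hLc x₀.2.1 j).continuousAt (hBo.mem_nhds w₀.2)) hprw.continuousAt
        have hclose := (Metric.continuousAt_iff'.mp hc) 1 one_pos
        filter_upwards [hclose] with w hw hwi
        rw [hform w hwi, hform w₀ rfl, dist_eq_norm] at hw
        have : |(E.symm w).2.2 j - x₀.2.2 j| < 1 := by
          have h5 : ‖((((E.symm w).2.2 j - x₀.2.2 j : ℤ)) : ℂ)‖ < 1 := by
            push_cast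
            exact hw
          rw [Complex.norm_intCast] at h5
          exact_mod_cast h5
        have := Int.abs_lt_one_iff.mp this
        omega
      rw [← Filter.eventually_all] at hall
      filter_upwards [hall, hi] with w hw hwi
      funext j
      exact hw j hwi
    have hsnd : ContinuousAt (fun w => (E.symm w).2) w₀ := by
      refine (continuousAt_const (y := x₀.2)).congr ?_
      filter_upwards [hi, hn] with w h1 h2
      exact (Prod.ext h1 h2).symm
    exact hfst.prodMk hsnd
  refine IsEvenlyCovered.to_isEvenlyCovered_preimage (I := Fin e × (Fin ρ → ℤ))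
    ⟨inferInstance, U, hzB, hUo, hUo.preimage hqc,
      { toEquiv := E.symm
        continuous_toFun := hEc
        continuous_invFun := hKc }, ?_⟩
  intro w
  exact hE1 w

end Pool.Agent.TH833.Gor
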