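import Mathlib

set_option autoImplicit false
set_option linter.style.haveILetI false

/-!
# The discrete space `ℕ` is `l`-stable but not `S`-stable

`C_p(ℕ)` is complete, `C_p(ℕ × (ω + 1))` is not.
-/

namespace Pool.Agent.TH833.CpDiscrete

open Topology Filter

/-- the topology of pointwise convergence on `C(X, ℝ)` -/
abbrev pt (X : Type) [TopologicalSpace X] : TopologicalSpace C(X, ℝ) :=
  TopologicalSpace.induced (fun f : C(X, ℝ) => (f : X → ℝ)) inferInstance

/-- composition with a homeomorphism -/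
def compEquiv {X Y : Type} [TopologicalSpace X] [TopologicalSpace Y] (h : Y ≃ₜ X) :
    C(X, ℝ) ≃ₗ[ℝ] C(Y, ℝ) where
  toFun f := f.comp ⟨h, h.continuous⟩
  invFun f := f.comp ⟨h.symm, h.symm.continuous⟩
  left_inv f := by ext x; simp
  right_inv f := by ext x; simp
  map_add' f g := by ext x; simp
  map_smul' c f := by ext x; simp

lemma cont_compEquiv {X Y : Type} [TopologicalSpace X] [TopologicalSpace Y] (h : Y ≃ₜ X) :
    @Continuous _ _ (pt X) (pt Y) (compEquiv h) := by
  letI := pt X
  letI := pt Y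
  refine continuous_induced_rng.2 (continuous_pi fun y => ?_)
  exact (continuous_apply (h y)).comp continuous_induced_dom

lemma cont_compEquiv_symm {X Y : Type} [TopologicalSpace X] [TopologicalSpace Y] (h : Y ≃ₜ X) :
    @Continuous _ _ (pt Y) (pt X) (compEquiv h).symm := by
  letI := pt X
  letI := pt Y
  refine continuous_induced_rng.2 (continuous_pi fun y => ?_)
  exact (continuous_apply (h.symm y)).comp continuous_induced_dom

/-- evaluation at a point is continuous -/
lemma cont_eval {X : Type} [TopologicalSpace X] (x : X) :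
    @Continuous _ _ (pt X) _ (fun f : C(X, ℝ) => f x) := by
  letI := pt X
  exact (continuous_apply x).comp continuous_induced_dom

/-- a continuous linear functional on `C_p(X)` vanishes on the functions which vanish on some
finite set -/
lemma finite_support {X : Type} [TopologicalSpace X] (φ : C(X, ℝ) →ₗ[ℝ] ℝ)
    (hφ : @Continuous _ _ (pt X) _ φ) :
    ∃ F : Finset X, ∀ f : C(X, ℝ), (∀ x ∈ F, f x = 0) → φ f = 0 := by
  letI := pt X
  have h0 : {f : C(X, ℝ) | |φ f| < 1} ∈ 𝓝 (0 : C(X, ℝ)) := by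
    have hc : Continuous fun f : C(X, ℝ) => |φ f| := hφ.abs
    exact (isOpen_Iio.preimage hc).mem_nhds (by simp)
  rw [nhds_induced, Filter.mem_comap] at h0
  obtain ⟨U, hU, hUsub⟩ := h0
  have hU' : U ∈ 𝓝 (0 : X → ℝ) := by simpa using hU
  rw [nhds_pi, Filter.mem_pi] at hU'
  obtain ⟨I, hI, t, ht, hsub⟩ := hU'
  refine ⟨hI.toFinset, fun f hf => ?_⟩
  by_contra hne
  have key : ∀ c : ℝ, |φ (c • f)| < 1 := by
    intro c
    apply hUsub
    apply hsub
    intro x hx
    have : (c • f) x = 0 := by simp [hf x (hI.mem_toFinset.2 hx)]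
    simp only [ContinuousMap.coe_smul, Pi.smul_apply] at this ⊢
    rw [this]
    exact mem_of_mem_nhds (ht x)
  have := key (φ f)⁻¹
  rw [map_smul, smul_eq_mul, inv_mul_cancel₀ hne] at this
  simp at this

open Classical in
/-- the function on `ℕ × (ω + 1)` which is one at the even numbers below `n` -/
noncomputable def ev (n : ℕ) : C(ℕ × OnePoint ℕ, ℝ) where
  toFun p := if ∃ j < n, p.2 = ((2 * j : ℕ) : OnePoint ℕ) then 1 else 0
  continuous_toFun := by
    have h : IsClopen {y : OnePoint ℕ | ∃ j < n, y = ((2 * j : ℕ) : OnePoint ℕ)} := by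
      have e : {y : OnePoint ℕ | ∃ j < n, y = ((2 * j : ℕ) : OnePoint ℕ)}
          = ⋃ j ∈ Finset.range n, {((2 * j : ℕ) : OnePoint ℕ)} := by
        ext y; simp
      rw [e]
      refine (Finset.range n).finite_toSet.isClopen_biUnion (fun j _ => ⟨isClosed_singleton, ?_⟩)
      rw [← Set.image_singleton]
      exact OnePoint.isOpenEmbedding_coe.isOpenMap _ (isOpen_discrete _)
    have hc : Continuous fun y : OnePoint ℕ =>
        (if ∃ j < n, y = ((2 * j : ℕ) : OnePoint ℕ) then (1 : ℝ) else 0) := by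
      refine continuous_iff_continuousAt.2 fun y => ?_
      by_cases hy : ∃ j < n, y = ((2 * j : ℕ) : OnePoint ℕ)
      · refine (continuousAt_const (y := (1 : ℝ))).congr ?_
        filter_upwards [h.isOpen.mem_nhds hy] with z hz
        rw [if_pos hz]
      · refine (continuousAt_const (y := (0 : ℝ))).congr ?_
        filter_upwards [h.compl.isOpen.mem_nhds hy] with z hz
        have hz' : ¬ ∃ j < n, z = ((2 * j : ℕ) : OnePoint ℕ) := hz
        rw [if_neg hz']
    exact hc.comp continuous_snd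

lemma ev_stable (p : ℕ × OnePoint ℕ) : ∃ N : ℕ, ∀ n ≥ N, ev n p = ev N p := by
  by_cases h : ∃ j : ℕ, p.2 = ((2 * j : ℕ) : OnePoint ℕ)
  · obtain ⟨j, hj⟩ := h
    refine ⟨j + 1, fun n hn => ?_⟩
    have h1 : ∀ m, j < m → ev m p = 1 := fun m hm => if_pos ⟨j, hm, hj⟩
    rw [h1 n (by omega), h1 (j + 1) (by omega)]
  · refine ⟨0, fun n _ => ?_⟩
    have h1 : ∀ m, ev m p = 0 := fun m => if_neg (fun ⟨j, _, hj⟩ => h ⟨j, hj⟩)
    rw [h1, h1]

theorem not_equiv (e : C(ℕ × OnePoint ℕ, ℝ) ≃ₗ[ℝ] C(ℕ, ℝ))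
    (h1 : @Continuous _ _ (pt (ℕ × OnePoint ℕ)) (pt ℕ) e)
    (h2 : @Continuous _ _ (pt ℕ) (pt (ℕ × OnePoint ℕ)) e.symm) : False := by
  classical
  -- each coordinate of `e (ev n)` is eventually constant
  have hst : ∀ m : ℕ, ∃ N : ℕ, ∀ n ≥ N, e (ev n) m = e (ev N) m := by
    intro m
    let φ : C(ℕ × OnePoint ℕ, ℝ) →ₗ[ℝ] ℝ :=
      { toFun := fun f => e f m
        map_add' := fun f g => by simp
        map_smul' := fun c f => by simp }
    have hφ : @Continuous _ _ (pt (ℕ × OnePoint ℕ)) _ φ := by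
      letI := pt (ℕ × OnePoint ℕ)
      letI := pt ℕ
      exact (cont_eval m).comp h1
    obtain ⟨F, hF⟩ := finite_support φ hφ
    choose N hN using ev_stable
    refine ⟨F.sup N, fun n hn => ?_⟩
    have hz : φ (ev n - ev (F.sup N)) = 0 := by
      apply hF
      intro x hx
      have hle : N x ≤ F.sup N := Finset.le_sup hx
      simp only [ContinuousMap.sub_apply]
      rw [hN x n (hle.trans hn), hN x _ hle, sub_self]
    have : φ (ev n) - φ (ev (F.sup N)) = 0 := by rw [← map_sub]; exact hz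
    exact sub_eq_zero.1 this
  choose N hN using hst
  let g : C(ℕ, ℝ) := ⟨fun m => e (ev (N m)) m, continuous_of_discreteTopology⟩
  have hlim : @Tendsto ℕ C(ℕ, ℝ) (fun n => e (ev n)) atTop (@nhds _ (pt ℕ) g) := by
    letI := pt ℕ
    rw [nhds_induced, tendsto_comap_iff, tendsto_pi_nhds]
    intro m
    refine tendsto_const_nhds.congr' ?_
    filter_upwards [eventually_ge_atTop (N m)] with n hn
    simp only [Function.comp]
    exact (hN m n hn).symm
  have hlim2 : @Tendsto ℕ C(ℕ × OnePoint ℕ, ℝ) (fun n => ev n) atTop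
      (@nhds _ (pt (ℕ × OnePoint ℕ)) (e.symm g)) := by
    letI := pt ℕ
    letI := pt (ℕ × OnePoint ℕ)
    have := (h2.tendsto g).comp hlim
    simpa [Function.comp_def] using this
  have hpt : ∀ p, Tendsto (fun n => ev n p) atTop (𝓝 (e.symm g p)) := by
    intro p
    letI := pt (ℕ × OnePoint ℕ)
    exact ((cont_eval p).tendsto _).comp hlim2
  have hinf : e.symm g (0, OnePoint.infty) = 0 := by
    refine tendsto_nhds_unique (hpt _) ?_
    have : ∀ n, ev n (0, OnePoint.infty) = 0 := fun n =>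
      if_neg (fun ⟨j, _, hj⟩ => OnePoint.infty_ne_coe _ hj)
    simp only [this]
    exact tendsto_const_nhds
  have heven : ∀ j : ℕ, e.symm g (0, ((2 * j : ℕ) : OnePoint ℕ)) = 1 := by
    intro j
    refine tendsto_nhds_unique (hpt _) ?_
    refine tendsto_const_nhds.congr' ?_
    filter_upwards [eventually_gt_atTop j] with n hn
    exact (if_pos ⟨j, hn, rfl⟩).symm
  have hseq : Tendsto (fun j : ℕ => ((0 : ℕ), ((2 * j : ℕ) : OnePoint ℕ))) atTop
      (𝓝 ((0 : ℕ), OnePoint.infty)) := by
    refine Tendsto.prodMk_nhds tendsto_const_nhds ?_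
    have h1 : Tendsto (fun j : ℕ => 2 * j) atTop (Filter.coclosedCompact ℕ) := by
      rw [Filter.coclosedCompact_eq_cocompact, Filter.cocompact_eq_cofinite, Nat.cofinite_eq_atTop]
      exact tendsto_id.const_mul_atTop' (by norm_num)
    exact (OnePoint.tendsto_coe_infty).comp h1
  have hc := ((e.symm g).continuous.tendsto ((0 : ℕ), OnePoint.infty)).comp hseq
  have hone : Tendsto (fun _ : ℕ => (1 : ℝ)) atTop (𝓝 0) := by
    rw [hinf] at hc
    refine hc.congr fun j => ?_
    exact heven j
  exact one_ne_zero (tendsto_nhds_unique tendsto_const_nhds hone)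

end Pool.Agent.TH833.CpDiscrete
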