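import Mathlib

set_option autoImplicit false

open Filter Topology

namespace Pool.Agent.TH833.PX4935

/-- second-order expansion of a power -/
theorem pow_expand (m : ℕ) (X : ℝ) (hX : 0 ≤ X) :
    ∃ K : ℝ, 0 ≤ K ∧ ∀ x y : ℝ, |x| ≤ X → |y| ≤ X →
      |(x + y) ^ m - x ^ m - m * x ^ (m - 1) * y| ≤ K * y ^ 2 := by
  induction m with
  | zero => exact ⟨0, le_rfl, by intro x y _ _; simp⟩
  | succ m ih =>
    obtain ⟨K, hK, h⟩ := ih
    refine ⟨2 * X * K + m * X ^ (m - 1), by positivity, ?_⟩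
    intro x y hx hy
    have h1 := h x y hx hy
    have hm : (m : ℝ) * x ^ (m - 1) * x = m * x ^ m := by
      cases m with
      | zero => simp
      | succ m => rw [Nat.add_sub_cancel]; ring
    have e : (x + y) ^ (m + 1) - x ^ (m + 1) - ((m + 1 : ℕ) : ℝ) * x ^ (m + 1 - 1) * y
        = (x + y) * ((x + y) ^ m - x ^ m - m * x ^ (m - 1) * y) + m * x ^ (m - 1) * y ^ 2 := by
      rw [Nat.add_sub_cancel]
      push_cast
      linear_combination y * hm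
    rw [e]
    have h2 : |(x + y) * ((x + y) ^ m - x ^ m - m * x ^ (m - 1) * y)| ≤ 2 * X * (K * y ^ 2) := by
      rw [abs_mul]
      have : |x + y| ≤ 2 * X := (abs_add_le x y).trans (by linarith)
      exact mul_le_mul this h1 (abs_nonneg _) (by positivity)
    have h3 : |(m : ℝ) * x ^ (m - 1) * y ^ 2| ≤ m * X ^ (m - 1) * y ^ 2 := by
      rw [abs_mul, abs_mul, abs_of_nonneg (Nat.cast_nonneg m : (0 : ℝ) ≤ m), abs_pow,
        abs_of_nonneg (sq_nonneg y)]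
      have : |x| ^ (m - 1) ≤ X ^ (m - 1) := pow_le_pow_left₀ (abs_nonneg _) hx _
      gcongr
    calc _ ≤ _ := abs_add_le _ _
      _ ≤ 2 * X * (K * y ^ 2) + m * X ^ (m - 1) * y ^ 2 := add_le_add h2 h3
      _ = _ := by ring

theorem norm_expand {Q : Type} [NormedAddCommGroup Q] [InnerProductSpace ℝ Q] (m : ℕ) (a : Q) :
    ∃ K : ℝ, 0 ≤ K ∧ ∀ v : Q, ‖v‖ ≤ 1 →
      ‖a + v‖ ^ (2 * m) ≤
        ‖a‖ ^ (2 * m) + 2 * m * ‖a‖ ^ (2 * (m - 1)) * inner ℝ a v + K * ‖v‖ ^ 2 := by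
  obtain ⟨K, hK, h⟩ := pow_expand m ((2 * ‖a‖ + 1) ^ 2) (by positivity)
  refine ⟨m * ‖a‖ ^ (2 * (m - 1)) + K * (2 * ‖a‖ + 1) ^ 2, by positivity, ?_⟩
  intro v hv
  have ha := norm_nonneg a
  have hv0 := norm_nonneg v
  obtain ⟨y, hy⟩ : ∃ y : ℝ, y = 2 * inner ℝ a v + ‖v‖ ^ 2 := ⟨_, rfl⟩
  have h1 : ‖a + v‖ ^ 2 = ‖a‖ ^ 2 + y := by
    rw [hy, norm_add_sq_real]; ring
  have hy1 : |y| ≤ (2 * ‖a‖ + 1) * ‖v‖ := by
    have h3 := abs_real_inner_le_norm a v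
    have h2 : |y| ≤ 2 * |inner ℝ a v| + ‖v‖ ^ 2 := by
      rw [hy]
      refine (abs_add_le _ _).trans ?_
      rw [abs_mul, abs_of_pos (by norm_num : (0:ℝ) < 2),
        abs_of_nonneg (by positivity : (0:ℝ) ≤ ‖v‖ ^ 2)]
    nlinarith
  have hy2 : |y| ≤ (2 * ‖a‖ + 1) ^ 2 := by
    refine hy1.trans ?_
    nlinarith
  have hx : |‖a‖ ^ 2| ≤ (2 * ‖a‖ + 1) ^ 2 := by
    rw [abs_of_nonneg (by positivity)]
    nlinarith
  have h4 := (abs_le.1 (h (‖a‖ ^ 2) y hx hy2)).2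
  have h5 : y ^ 2 ≤ ((2 * ‖a‖ + 1) * ‖v‖) ^ 2 := sq_le_sq' (by linarith [(abs_le.1 hy1).1])
    (abs_le.1 hy1).2
  have h6 : ‖a + v‖ ^ (2 * m) = (‖a‖ ^ 2 + y) ^ m := by rw [pow_mul, h1]
  have h7 : ‖a‖ ^ (2 * m) = (‖a‖ ^ 2) ^ m := by rw [pow_mul]
  have h8 : ‖a‖ ^ (2 * (m - 1)) = (‖a‖ ^ 2) ^ (m - 1) := by rw [pow_mul]
  rw [h6, h7, h8]
  have h9 : (m : ℝ) * (‖a‖ ^ 2) ^ (m - 1) * y = 2 * m * (‖a‖ ^ 2) ^ (m - 1) * inner ℝ a v
      + m * (‖a‖ ^ 2) ^ (m - 1) * ‖v‖ ^ 2 := by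
    rw [hy]; ring
  have h10 : K * y ^ 2 ≤ K * ((2 * ‖a‖ + 1) * ‖v‖) ^ 2 := mul_le_mul_of_nonneg_left h5 hK
  have h11 : K * ((2 * ‖a‖ + 1) * ‖v‖) ^ 2 = K * (2 * ‖a‖ + 1) ^ 2 * ‖v‖ ^ 2 := by ring
  nlinarith

theorem flat_blocks {Q : Type} [NormedAddCommGroup Q] [InnerProductSpace ℝ Q]
    [FiniteDimensional ℝ Q] {ι : Type} [Fintype ι] (P : ι → Q →L[ℝ] Q) (hsum : ∀ q, ∑ i, P i q = q)
    (hPP : ∀ i j, i ≠ j → ∀ q, P i (P j q) = 0)
    (T T' : Q →L[ℝ] Q) (hTT' : ∀ q, T (T' q) = q) (hT'T : ∀ q, T' (T q) = q)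
    (α β : ι → ℝ) (C : ℝ) (hα : ∀ i, 0 < α i ∧ α i < 1 ∧ 0 < β i ∧ α i ^ 2 * β i < 1)
    (hT' : ∀ i (n : ℕ) q, ‖P i ((T' ^ n) q)‖ ≤ C * α i ^ n * ‖q‖)
    (hT : ∀ i (n : ℕ) q, ‖(T ^ n) (P i q)‖ ≤ C * β i ^ n * ‖q‖) :
    ∃ m : ℕ, 1 ≤ m ∧ ∀ b : Q, b ≠ 0 → ∀ n : ℕ → ℕ, Tendsto n atTop atTop →
      ∃ φ : ℕ → ℕ, StrictMono φ ∧ ∃ f : Q →L[ℝ] ℝ, f ≠ 0 ∧
        ∀ (w : ℕ → Q) (w0 : Q), Tendsto w atTop (𝓝 w0) → f w0 < 0 →
          ∀ᶠ k in atTop, ∑ i, ‖P i (b + (T' ^ (n (φ k))) (w k))‖ ^ (2 * m) <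
            ∑ i, ‖P i b‖ ^ (2 * m) := by
  classical
  -- replace C by a positive constant
  obtain ⟨D, hD, hT'D, hTD⟩ : ∃ D : ℝ, 0 < D ∧
      (∀ i (n : ℕ) q, ‖P i ((T' ^ n) q)‖ ≤ D * α i ^ n * ‖q‖) ∧
      (∀ i (n : ℕ) q, ‖(T ^ n) (P i q)‖ ≤ D * β i ^ n * ‖q‖) := by
    refine ⟨max C 1, lt_of_lt_of_le one_pos (le_max_right _ _), ?_, ?_⟩
    · intro i n q
      refine (hT' i n q).trans ?_
      have := (hα i).1
      have h1 : C ≤ max C 1 := le_max_left _ _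
      gcongr
    · intro i n q
      refine (hT i n q).trans ?_
      have := (hα i).2.2.1
      have h1 : C ≤ max C 1 := le_max_left _ _
      gcongr
  -- choice of m
  obtain ⟨m, hm1, hm⟩ : ∃ m : ℕ, 1 ≤ m ∧ ∀ i j, α i ^ (2 * m) * β j < 1 := by
    have key : ∀ i j, ∀ᶠ m : ℕ in atTop, α i ^ (2 * m) * β j < 1 := by
      intro i j
      have h0 : Tendsto (fun m : ℕ => α i ^ (2 * m) * β j) atTop (𝓝 (0 * β j)) := by
        refine Tendsto.mul_const _ ?_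
        have h1 : Tendsto (fun k : ℕ => α i ^ k) atTop (𝓝 0) :=
          tendsto_pow_atTop_nhds_zero_of_lt_one (hα i).1.le (hα i).2.1
        exact h1.comp (tendsto_atTop_mono (fun k => by omega : ∀ k : ℕ, k ≤ 2 * k) tendsto_id)
      rw [zero_mul] at h0
      exact h0.eventually_lt_const one_pos
    have key2 : ∀ᶠ m : ℕ in atTop, ∀ i j, α i ^ (2 * m) * β j < 1 := by
      rw [eventually_all]; intro i
      rw [eventually_all]; intro j
      exact key i j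
    obtain ⟨m, h1, h2⟩ := (key2.and (eventually_ge_atTop 1)).exists
    exact ⟨m, h2, h1⟩
  refine ⟨m, hm1, ?_⟩
  intro b hb n hn
  -- powers
  have hpow : ∀ (k : ℕ) q, (T' ^ k) ((T ^ k) q) = q := by
    intro k
    induction k with
    | zero => intro q; simp
    | succ k ih =>
      intro q
      rw [pow_succ, pow_succ']
      change (T' ^ k) (T' (T ((T ^ k) q))) = q
      rw [hT'T, ih]
  have hPid : ∀ i q, P i (P i q) = P i q := by
    intro i q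
    have h1 : P i q = P i (∑ j, P j q) := by rw [hsum]
    rw [map_sum, Finset.sum_eq_single i] at h1
    · exact h1.symm
    · intro j _ hji
      exact hPP i j (Ne.symm hji) q
    · intro h; exact absurd (Finset.mem_univ i) h
  -- the functional
  let F : Q →L[ℝ] ℝ := ∑ i, (2 * (m : ℝ) * ‖P i b‖ ^ (2 * (m - 1))) •
    ((innerSL ℝ (P i b)).comp (P i))
  have hF : ∀ q, F q = ∑ i, 2 * (m : ℝ) * ‖P i b‖ ^ (2 * (m - 1)) * inner ℝ (P i b) (P i q) := by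
    intro q
    simp [F]
  let f : ℕ → Q →L[ℝ] ℝ := fun k => F.comp (T' ^ k)
  have hf : ∀ k q, f k q = F ((T' ^ k) q) := fun k q => rfl
  have hmpos : (0 : ℝ) < m := by exact_mod_cast hm1
  have hbn : 0 < ‖b‖ := norm_pos_iff.2 hb
  -- lower bound
  have hlow : ∀ i, P i b ≠ 0 → ∃ c : ℝ, 0 < c ∧ ∀ k, c ≤ ‖f k‖ * β i ^ k := by
    intro i hi
    refine ⟨2 * m * ‖P i b‖ ^ (2 * m) / (D * ‖b‖), ?_, ?_⟩
    · have : 0 < ‖P i b‖ := norm_pos_iff.2 hi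
      positivity
    · intro k
      rw [div_le_iff₀ (by positivity)]
      have h1 : f k ((T ^ k) (P i b)) = 2 * m * ‖P i b‖ ^ (2 * m) := by
        rw [hf, hpow, hF, Finset.sum_eq_single i]
        · rw [hPid, real_inner_self_eq_norm_sq]
          obtain ⟨m', rfl⟩ : ∃ m', m = m' + 1 := ⟨m - 1, by omega⟩
          rw [Nat.add_sub_cancel]
          ring
        · intro j _ hji
          rw [hPP j i hji]; simp
        · intro h; exact absurd (Finset.mem_univ i) h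
      calc 2 * m * ‖P i b‖ ^ (2 * m) = f k ((T ^ k) (P i b)) := h1.symm
        _ ≤ ‖f k ((T ^ k) (P i b))‖ := Real.le_norm_self _
        _ ≤ ‖f k‖ * ‖(T ^ k) (P i b)‖ := (f k).le_opNorm _
        _ ≤ ‖f k‖ * (D * β i ^ k * ‖b‖) := by
            gcongr
            exact hTD i k b
        _ = ‖f k‖ * β i ^ k * (D * ‖b‖) := by ring
  -- some block is nonzero
  obtain ⟨i0, hi0⟩ : ∃ i, P i b ≠ 0 := by
    by_contra hcon
    push Not at hcon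
    apply hb
    rw [← hsum b]
    exact Finset.sum_eq_zero (fun i _ => hcon i)
  obtain ⟨c0, hc0, hc0'⟩ := hlow i0 hi0
  have hfpos : ∀ k, 0 < ‖f k‖ := by
    intro k
    have h1 := hc0' k
    have h2 : 0 < β i0 ^ k := pow_pos (hα i0).2.2.1 k
    by_contra hcon
    have h3 : ‖f k‖ * β i0 ^ k ≤ 0 := mul_nonpos_of_nonpos_of_nonneg (not_lt.1 hcon) h2.le
    linarith
  -- compactness
  let g : ℕ → Q →L[ℝ] ℝ := fun k => ‖f (n k)‖⁻¹ • f (n k)
  have hg : ∀ k, g k ∈ Metric.sphere (0 : Q →L[ℝ] ℝ) 1 := by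
    intro k
    rw [mem_sphere_zero_iff_norm]
    simp only [g]
    rw [norm_smul, norm_inv, norm_norm, inv_mul_cancel₀ (hfpos _).ne']
  have : FiniteDimensional ℝ (Q →L[ℝ] ℝ) := inferInstance
  have : ProperSpace (Q →L[ℝ] ℝ) := FiniteDimensional.proper ℝ _
  obtain ⟨f0, hf0, φ, hφ, hlim⟩ := (isCompact_sphere (0 : Q →L[ℝ] ℝ) 1).tendsto_subseq hg
  refine ⟨φ, hφ, f0, ?_, ?_⟩
  · intro h0
    rw [h0, mem_sphere_zero_iff_norm, norm_zero] at hf0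
    exact zero_ne_one hf0
  intro w w0 hw hneg
  -- the error terms
  have hN : Tendsto (fun k => n (φ k)) atTop atTop := hn.comp hφ.tendsto_atTop
  have hwb : ∀ᶠ k in atTop, ‖w k‖ ≤ ‖w0‖ + 1 := by
    have := hw.norm.eventually_lt_const (by linarith : ‖w0‖ < ‖w0‖ + 1)
    exact this.mono (fun k hk => hk.le)
  obtain ⟨M, hM, hwM⟩ : ∃ M : ℝ, 0 < M ∧ ∀ᶠ k in atTop, ‖w k‖ ≤ M :=
    ⟨‖w0‖ + 1, by positivity, hwb⟩
  have herr : ∀ i, ∃ E r : ℝ, 0 ≤ r ∧ r < 1 ∧ ∀ᶠ k in atTop,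
      ‖P i (b + (T' ^ (n (φ k))) (w k))‖ ^ (2 * m) ≤ ‖P i b‖ ^ (2 * m) +
        2 * m * ‖P i b‖ ^ (2 * (m - 1)) * inner ℝ (P i b) (P i ((T' ^ (n (φ k))) (w k))) +
        E * r ^ (n (φ k)) * ‖f (n (φ k))‖ := by
    intro i
    obtain ⟨ha0, ha1, hb0, hab⟩ := hα i
    by_cases hi : P i b = 0
    · refine ⟨(D * M) ^ (2 * m) / c0, α i ^ (2 * m) * β i0,
        by have := (hα i0).2.2.1; positivity, hm i i0, ?_⟩
      filter_upwards [hwM] with k hk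
      have h1 : ‖P i ((T' ^ (n (φ k))) (w k))‖ ≤ D * M * α i ^ (n (φ k)) := by
        refine (hT'D i _ _).trans ?_
        calc D * α i ^ (n (φ k)) * ‖w k‖ ≤ D * α i ^ (n (φ k)) * M := by gcongr
          _ = _ := by ring
      have h2 : ‖P i ((T' ^ (n (φ k))) (w k))‖ ^ (2 * m) ≤ (D * M * α i ^ (n (φ k))) ^ (2 * m) :=
        pow_le_pow_left₀ (norm_nonneg _) h1 _
      rw [map_add, hi, zero_add, norm_zero, inner_zero_left, mul_zero, add_zero,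
        zero_pow (by omega), zero_add]
      refine h2.trans ?_
      have h3 := hc0' (n (φ k))
      have h4 : 0 ≤ (D * M) ^ (2 * m) / c0 * (α i ^ (2 * m)) ^ (n (φ k)) := by positivity
      calc (D * M * α i ^ (n (φ k))) ^ (2 * m)
          = (D * M) ^ (2 * m) / c0 * (α i ^ (2 * m)) ^ (n (φ k)) * c0 := by
            rw [mul_pow, ← pow_mul, ← pow_mul, mul_comm (n (φ k)) (2 * m)]
            field_simp
        _ ≤ (D * M) ^ (2 * m) / c0 * (α i ^ (2 * m)) ^ (n (φ k)) *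
              (‖f (n (φ k))‖ * β i0 ^ (n (φ k))) := mul_le_mul_of_nonneg_left h3 h4
        _ = (D * M) ^ (2 * m) / c0 * (α i ^ (2 * m) * β i0) ^ (n (φ k)) * ‖f (n (φ k))‖ := by
            rw [mul_pow]; ring
    · obtain ⟨K, hK, hKv⟩ := norm_expand m (P i b)
      obtain ⟨c, hc, hc'⟩ := hlow i hi
      refine ⟨K * (D * M) ^ 2 / c, α i ^ 2 * β i, by positivity, hab, ?_⟩
      have hsmall : ∀ᶠ k in atTop, D * M * α i ^ (n (φ k)) < 1 := by
        have h0 : Tendsto (fun k => D * M * α i ^ (n (φ k))) atTop (𝓝 (D * M * 0)) :=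
          ((tendsto_pow_atTop_nhds_zero_of_lt_one ha0.le ha1).comp hN).const_mul _
        rw [mul_zero] at h0
        exact h0.eventually_lt_const one_pos
      filter_upwards [hwM, hsmall] with k hk hk2
      have h1 : ‖P i ((T' ^ (n (φ k))) (w k))‖ ≤ D * M * α i ^ (n (φ k)) := by
        refine (hT'D i _ _).trans ?_
        calc D * α i ^ (n (φ k)) * ‖w k‖ ≤ D * α i ^ (n (φ k)) * M := by gcongr
          _ = _ := by ring
      have h2 := hKv (P i ((T' ^ (n (φ k))) (w k))) (h1.trans hk2.le)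
      rw [map_add]
      refine h2.trans ?_
      have h3 := hc' (n (φ k))
      have h5 : ‖P i ((T' ^ (n (φ k))) (w k))‖ ^ 2 ≤ (D * M * α i ^ (n (φ k))) ^ 2 :=
        pow_le_pow_left₀ (norm_nonneg _) h1 _
      have h4 : 0 ≤ K * (D * M) ^ 2 / c * (α i ^ 2) ^ (n (φ k)) := by positivity
      have h6 : K * ‖P i ((T' ^ (n (φ k))) (w k))‖ ^ 2 ≤
          K * (D * M) ^ 2 / c * (α i ^ 2 * β i) ^ (n (φ k)) * ‖f (n (φ k))‖ := by
        calc K * ‖P i ((T' ^ (n (φ k))) (w k))‖ ^ 2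
            ≤ K * (D * M * α i ^ (n (φ k))) ^ 2 := mul_le_mul_of_nonneg_left h5 hK
          _ = K * (D * M) ^ 2 / c * (α i ^ 2) ^ (n (φ k)) * c := by
            rw [mul_pow (D * M), ← pow_mul, ← pow_mul, mul_comm (n (φ k)) 2]
            field_simp
          _ ≤ K * (D * M) ^ 2 / c * (α i ^ 2) ^ (n (φ k)) *
                (‖f (n (φ k))‖ * β i ^ (n (φ k))) := mul_le_mul_of_nonneg_left h3 h4
          _ = K * (D * M) ^ 2 / c * (α i ^ 2 * β i) ^ (n (φ k)) * ‖f (n (φ k))‖ := by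
            rw [mul_pow (α i ^ 2)]; ring
      linarith
  choose E r hr0 hr1 hE using herr
  have hall : ∀ᶠ k in atTop, ∀ i,
      ‖P i (b + (T' ^ (n (φ k))) (w k))‖ ^ (2 * m) ≤ ‖P i b‖ ^ (2 * m) +
        2 * m * ‖P i b‖ ^ (2 * (m - 1)) * inner ℝ (P i b) (P i ((T' ^ (n (φ k))) (w k))) +
        E i * r i ^ (n (φ k)) * ‖f (n (φ k))‖ := by
    rw [eventually_all]; exact hE
  have hlim2 : Tendsto (fun k => g (φ k) (w k) + ∑ i, E i * r i ^ (n (φ k))) atTop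
      (𝓝 (f0 w0 + ∑ i : ι, E i * 0)) := by
    refine Tendsto.add ?_ ?_
    · have hb2 : Continuous (fun p : (Q →L[ℝ] ℝ) × Q => p.1 p.2) :=
        isBoundedBilinearMap_apply.continuous
      exact (hb2.tendsto (f0, w0)).comp (hlim.prodMk_nhds hw)
    · refine tendsto_finsetSum _ (fun i _ => Tendsto.const_mul _ ?_)
      exact (tendsto_pow_atTop_nhds_zero_of_lt_one (hr0 i) (hr1 i)).comp hN
  have hneg2 : f0 w0 + ∑ i : ι, E i * 0 < 0 := by simpa using hneg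
  filter_upwards [hall, hlim2.eventually_lt_const hneg2] with k hk1 hk2
  have hs : ∑ i, ‖P i (b + (T' ^ (n (φ k))) (w k))‖ ^ (2 * m) ≤
      ∑ i, (‖P i b‖ ^ (2 * m) +
        2 * m * ‖P i b‖ ^ (2 * (m - 1)) * inner ℝ (P i b) (P i ((T' ^ (n (φ k))) (w k))) +
        E i * r i ^ (n (φ k)) * ‖f (n (φ k))‖) := Finset.sum_le_sum (fun i _ => hk1 i)
  rw [Finset.sum_add_distrib, Finset.sum_add_distrib, ← hF, ← Finset.sum_mul] at hs
  have hfg : F ((T' ^ (n (φ k))) (w k)) = ‖f (n (φ k))‖ * g (φ k) (w k) := by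
    rw [← hf]
    simp only [g]
    rw [smul_apply, smul_eq_mul, ← mul_assoc,
      mul_inv_cancel₀ (hfpos _).ne', one_mul]
  rw [hfg] at hs
  have h9 : ‖f (n (φ k))‖ * (g (φ k) (w k) + ∑ i, E i * r i ^ (n (φ k))) < 0 :=
    mul_neg_of_pos_of_neg (hfpos _) hk2
  nlinarith

end Pool.Agent.TH833.PX4935
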